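import Pool.Agent.W744.BU.Asm
import Pool.Agent.W566.BU.TENS
import Pool.Agent.W688.BU.EST
import Pool.Agent.W740.BU.ENT
import Pool.Agent.W238.BU.COMP
import Pool.Agent.W639.BU.BLK
import Pool.Agent.W196.BU.DOP
import Pool.Agent.W37.BU.LAM
import Pool.Agent.W980.BU.SCHUR
import Pool.Agent.W688.BU.BR
import Pool.Agent.W94.BU.QBQ
import Pool.Agent.W730.BU.TAU
import Pool.Agent.W390.BU.POLA
import Pool.Agent.W885.BU.POLB
import Pool.Agent.W327.BU.TC
import Pool.Agent.W165.BU.YF
import Pool.Agent.W765.BU.PP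
import Pool.Agent.W715.BU.DU
import Pool.Agent.W336.BU.UN
import Pool.Agent.W199.BU.UP
import Pool.Agent.W92.BU.SPA
import Pool.Agent.W856.BU.GR
import Pool.Agent.W433.BU.CO
import Pool.Agent.W375.BU.PHI
import Pool.Agent.W236.BU.EQ
import Pool.Agent.W450.BU.DAT

/-! All parts together. -/

set_option autoImplicit false

namespace Pool.Agent.W744.BU

theorem parts : Parts := by
  have E : S_ENT := Pool.Agent.W740.BU.ENT.main
  have T : S_TENS := Pool.Agent.W566.BU.TENS.main E
  have C : S_COMP := Pool.Agent.W238.BU.COMP.main E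
  have K : S_BLK := Pool.Agent.W639.BU.BLK.main E
  have D : S_DOP := Pool.Agent.W196.BU.DOP.main E T
  have L : S_LAM := Pool.Agent.W37.BU.LAM.main E T D
  have A : S_TAU := Pool.Agent.W730.BU.TAU.main Pool.Agent.W980.BU.SCHUR.main
    Pool.Agent.W688.BU.BR.main Pool.Agent.W94.BU.QBQ.main Pool.Agent.W688.BU.EST.main
  have Y : S_YF := Pool.Agent.W165.BU.YF.main Pool.Agent.W390.BU.POLA.main
    Pool.Agent.W885.BU.POLB.main Pool.Agent.W327.BU.TC.main
  have P : S_PP := Pool.Agent.W765.BU.PP.main E T L A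
  have U : S_DU := Pool.Agent.W715.BU.DU.main E T D L
  have N : S_UN := Pool.Agent.W336.BU.UN.main K P Y
  have V : S_UP := Pool.Agent.W199.BU.UP.main E T C K L Y P N
  have S : S_SPA := Pool.Agent.W92.BU.SPA.main E T L
  have R : S_GR := Pool.Agent.W856.BU.GR.main E T D L S
  have O : S_CO := Pool.Agent.W433.BU.CO.main E T C D
  have H : S_PHI := Pool.Agent.W375.BU.PHI.main E T C D L Y P N V U R
  have Q : S_EQ := Pool.Agent.W236.BU.EQ.main E T C L V
  exact ⟨E, T, C, D, L, P, U, N, R, O, H, Q⟩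

end Pool.Agent.W744.BU
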