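import Mathlib

/-!
Noncommutative Borsuk-Ulam type conjecture of type 1 (MP_90d4f1_an): definitions.

All C*-algebras are given concretely, as norm closed unital star subalgebras of the algebra of
bounded operators on a Hilbert space `ℓ²(I)`; the minimal tensor product of two of them is the
spatial one, on `ℓ²(I × J) = ℓ²(I) ⊗ ℓ²(J)`. Star homomorphisms of a C*-algebra `A` on `ℓ²(I)` are
given by functions on all operators, of which only the values on `A` are used.
-/

set_option autoImplicit false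

open Set Filter Topology

namespace Pool.Agent.W744.BU.Fin

/-- The Hilbert space `ℓ²(I)`. -/
def L2 (I : Type) : Type := lp (fun _ : I => ℂ) 2

noncomputable instance instN (I : Type) : NormedAddCommGroup (L2 I) :=
  (inferInstance : NormedAddCommGroup (lp (fun _ : I => ℂ) 2))

noncomputable instance instI (I : Type) : InnerProductSpace ℂ (L2 I) :=
  (inferInstance : InnerProductSpace ℂ (lp (fun _ : I => ℂ) 2))

instance instC (I : Type) : CompleteSpace (L2 I) :=
  (inferInstance : CompleteSpace (lp (fun _ : I => ℂ) 2))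

/-- The bounded operators on `ℓ²(I)`. -/
def Op (I : Type) : Type := L2 I →L[ℂ] L2 I

/-- The C*-algebra structure of `Op I`: the usual one of bounded operators. -/
noncomputable def algOp (I : Type) : CStarAlgebra (Op I) :=
  (inferInstance : CStarAlgebra (L2 I →L[ℂ] L2 I))

noncomputable instance instOp (I : Type) : CStarAlgebra (Op I) := algOp I

/-- Unital star subalgebras of the bounded operators on `ℓ²(I)`. -/
abbrev SA (I : Type) : Type := StarSubalgebra ℂ (Op I)

open Classical in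
/-- The standard basis vector of `ℓ²(I)`. -/
noncomputable def e {I : Type} (i : I) : L2 I := (lp.single 2 i (1 : ℂ) : lp (fun _ : I => ℂ) 2)

/-- The coordinates of a vector. -/
noncomputable def coord {I : Type} (x : L2 I) (i : I) : ℂ := (show lp (fun _ : I => ℂ) 2 from x) i

/-- The value of an operator at a vector. -/
noncomputable def app {I : Type} (a : Op I) (x : L2 I) : L2 I := (show L2 I →L[ℂ] L2 I from a) x

/-- The matrix entries of an operator. -/
noncomputable def entry {I : Type} (a : Op I) (i j : I) : ℂ := coord (app a (e j)) i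

/-- `c` is the operator `a ⊗ b` on `ℓ²(I × J) = ℓ²(I) ⊗ ℓ²(J)`. -/
def IsTens {I J : Type} (a : Op I) (b : Op J) (c : Op (I × J)) : Prop :=
  ∀ i k i' k', entry c (i, k) (i', k') = entry a i i' * entry b k k'

/-- The minimal (spatial) tensor product of two concrete C*-algebras: the C*-algebra generated
by the operators `a ⊗ b`. -/
noncomputable def spat {I J : Type} (A : SA I) (B : SA J) : SA (I × J) :=
  (StarAlgebra.adjoin ℂ {c : Op (I × J) | ∃ a ∈ A, ∃ b ∈ B, IsTens a b c}).topologicalClosure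

/-- `f` is a unital star homomorphism from `A` to the bounded operators on `ℓ²(J)`. -/
structure IsHom {I J : Type} (A : SA I) (f : Op I → Op J) : Prop where
  map_one : f 1 = 1
  map_add : ∀ a ∈ A, ∀ b ∈ A, f (a + b) = f a + f b
  map_smul : ∀ z : ℂ, ∀ a ∈ A, f (z • a) = z • f a
  map_mul : ∀ a ∈ A, ∀ b ∈ A, f (a * b) = f a * f b
  map_star : ∀ a ∈ A, f (star a) = star (f a)

/-- `F` is the tensor product `f ⊗ g : A ⊗ B → B(ℓ²(I' × J'))` of two unital star
homomorphisms. -/
def IsTensHom {I J I' J' : Type} (A : SA I) (B : SA J) (f : Op I → Op I') (g : Op J → Op J')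
    (F : Op (I × J) → Op (I' × J')) : Prop :=
  IsHom (spat A B) F ∧ ∀ a ∈ A, ∀ b ∈ B, ∀ c, IsTens a b c → IsTens (f a) (g b) (F c)

/-- The operators `c` on `ℓ²((I × J) × K)` and `d` on `ℓ²(I × (J × K))` correspond to each
other. -/
def SameAssoc {I J K : Type} (c : Op ((I × J) × K)) (d : Op (I × (J × K))) : Prop :=
  ∀ i j k i' j' k', entry c ((i, j), k) ((i', j'), k') = entry d (i, (j, k)) (i', (j', k'))

/-- The closed linear span of `S` contains `B`. -/
def Spans {I : Type} (S : Set (Op I)) (B : SA I) : Prop :=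
  ∀ b ∈ B, b ∈ closure (Submodule.span ℂ S : Set (Op I))

/-- Compact quantum groups `(H, Δ)`. -/
structure CQG where
  I : Type
  H : SA I
  isClosed : IsClosed (H : Set (Op I))
  Δ : Op I → Op (I × I)
  hom : IsHom H Δ
  mem : ∀ h ∈ H, Δ h ∈ spat H H
  coassoc : ∃ (F : Op (I × I) → Op ((I × I) × I)) (G : Op (I × I) → Op (I × (I × I))),
    IsTensHom H H Δ id F ∧ IsTensHom H H id Δ G ∧ ∀ h ∈ H, SameAssoc (F (Δ h)) (G (Δ h))
  dense₁ : Spans {x | ∃ h ∈ H, ∃ k ∈ H, ∃ t, IsTens 1 k t ∧ x = Δ h * t} (spat H H)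
  dense₂ : Spans {x | ∃ h ∈ H, ∃ k ∈ H, ∃ t, IsTens k 1 t ∧ x = Δ h * t} (spat H H)

/-- `H ≠ ℂ 1`. -/
def CQG.NonTrivial (Q : CQG) : Prop := ∃ h ∈ Q.H, ∀ z : ℂ, h ≠ z • 1

/-- Coactions of a compact quantum group on unital C*-algebras. -/
structure Coaction (Q : CQG) where
  J : Type
  A : SA J
  isClosed : IsClosed (A : Set (Op J))
  δ : Op J → Op (J × Q.I)
  hom : IsHom A δ
  inj : ∀ a ∈ A, ∀ b ∈ A, δ a = δ b → a = b
  mem : ∀ a ∈ A, δ a ∈ spat A Q.H
  coassoc : ∃ (F : Op (J × Q.I) → Op ((J × Q.I) × Q.I)) (G : Op (J × Q.I) → Op (J × (Q.I × Q.I))),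
    IsTensHom A Q.H δ id F ∧ IsTensHom A Q.H id Q.Δ G ∧ ∀ a ∈ A, SameAssoc (F (δ a)) (G (δ a))
  dense : Spans {x | ∃ a ∈ A, ∃ h ∈ Q.H, ∃ t, IsTens 1 h t ∧ x = δ a * t} (spat A Q.H)

/-- Free coactions: the span of the elements `(x ⊗ 1) δ(y)` is dense in `A ⊗ H`. -/
def Coaction.Free {Q : CQG} (α : Coaction Q) : Prop :=
  Spans {x | ∃ a ∈ α.A, ∃ b ∈ α.A, ∃ t, IsTens a 1 t ∧ x = t * α.δ b} (spat α.A Q.H)

/-- The path `f : [0,1] → A ⊗ H` belongs to the equivariant join `A *_δ H`: it is continuous,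
`f 0 ∈ ℂ ⊗ H` and `f 1 ∈ δ(A)`. -/
def Coaction.InJoin {Q : CQG} (α : Coaction Q) (f : unitInterval → Op (α.J × Q.I)) : Prop :=
  Continuous f ∧ (∀ t, f t ∈ spat α.A Q.H) ∧ (∃ h ∈ Q.H, IsTens 1 h (f 0)) ∧
    ∃ a ∈ α.A, f 1 = α.δ a

/-- `φ` is an equivariant unital star homomorphism from `A` to the equivariant join: for `a ∈ A`
the path `φ a` is in the join, for every `t` the map `φ_t : a ↦ φ a t` is a unital star
homomorphism and `(id ⊗ Δ) (φ_t(a)) = (φ_t ⊗ id) (δ(a))` for all `a ∈ A`. -/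
def Coaction.IsJoinMap {Q : CQG} (α : Coaction Q)
    (φ : Op α.J → unitInterval → Op (α.J × Q.I)) : Prop :=
  (∀ a ∈ α.A, α.InJoin (φ a)) ∧ ∀ t : unitInterval, IsHom α.A (fun a => φ a t) ∧
    ∃ (F : Op (α.J × Q.I) → Op ((α.J × Q.I) × Q.I)) (G : Op (α.J × Q.I) → Op (α.J × (Q.I × Q.I))),
      IsTensHom α.A Q.H (fun a => φ a t) id F ∧ IsTensHom α.A Q.H id Q.Δ G ∧
        ∀ a ∈ α.A, SameAssoc (F (α.δ a)) (G (φ a t))

end Pool.Agent.W744.BU.Fin
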