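import Pool.Agent.W744.BU.Asm
import Pool.Agent.W744.BU.Fin

set_option autoImplicit false

open Set Filter Topology

namespace Pool.Agent.W744.BU.Trans

open Pool.Agent.W744.BU

noncomputable def sa {I : Type} (A : StarSubalgebra ℂ (Op I)) : Fin.SA I := A

open Classical in
/-- Extension by zero of a star homomorphism. -/
noncomputable def ex {I J : Type} {A : StarSubalgebra ℂ (Op I)} (f : A →⋆ₐ[ℂ] Op J) :
    Fin.Op I → Fin.Op J :=
  fun x => if h : (show Op I from x) ∈ A then f ⟨x, h⟩ else (0 : Op J)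

theorem ex_eq {I J : Type} {A : StarSubalgebra ℂ (Op I)} (f : A →⋆ₐ[ℂ] Op J) (a : Op I)
    (h : a ∈ A) : ex f a = f ⟨a, h⟩ := dif_pos h

theorem isHom_ex {I J : Type} {A : StarSubalgebra ℂ (Op I)} (f : A →⋆ₐ[ℂ] Op J) :
    Fin.IsHom (sa A) (ex f) where
  map_one := (ex_eq f 1 (one_mem A)).trans f.map_one'
  map_add := fun a ha b hb => by
    have h1 := ex_eq f a ha
    have h2 := ex_eq f b hb
    have h3 : ex f (a + b) = f (⟨a, ha⟩ + ⟨b, hb⟩) :=
      ex_eq f ((show Op I from a) + (show Op I from b)) (A.add_mem ha hb)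
    rw [h3, h1, h2]
    exact f.map_add' _ _
  map_smul := fun z a ha => by
    have h1 := ex_eq f a ha
    have h3 : ex f (z • a) = f (z • ⟨a, ha⟩) :=
      ex_eq f (z • (show Op I from a)) (A.smul_mem ha z)
    rw [h3, h1]
    exact map_smul f _ _
  map_mul := fun a ha b hb => by
    have h1 := ex_eq f a ha
    have h2 := ex_eq f b hb
    have h3 : ex f (a * b) = f (⟨a, ha⟩ * ⟨b, hb⟩) :=
      ex_eq f ((show Op I from a) * (show Op I from b)) (A.mul_mem ha hb)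
    rw [h3, h1, h2]
    exact f.map_mul' _ _
  map_star := fun a ha => by
    have h1 := ex_eq f a ha
    have h3 : ex f (star a) = f (star ⟨a, ha⟩) :=
      ex_eq f (star (show Op I from a)) (star_mem (s := A) ha)
    rw [h3, h1]
    exact f.map_star' _

theorem mem_spat {I J : Type} {A : StarSubalgebra ℂ (Op I)} {B : StarSubalgebra ℂ (Op J)}
    {a : Op I} {b : Op J} {c : Op (I × J)} (ha : a ∈ A) (hb : b ∈ B) (hc : IsTens a b c) :
    c ∈ spat A B :=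
  StarSubalgebra.le_topologicalClosure _ (StarAlgebra.subset_adjoin _ _ ⟨a, ha, b, hb, hc⟩)

theorem tensHom {I J I' J' : Type} {A : StarSubalgebra ℂ (Op I)} {B : StarSubalgebra ℂ (Op J)}
    {f : A →⋆ₐ[ℂ] Op I'} {g : B →⋆ₐ[ℂ] Op J'} {F : spat A B →⋆ₐ[ℂ] Op (I' × J')}
    (h : IsTensHom f g F) {f' : Fin.Op I → Fin.Op I'} {g' : Fin.Op J → Fin.Op J'}
    (hf : ∀ (a : Op I) (ha : a ∈ A), f' a = f ⟨a, ha⟩)
    (hg : ∀ (b : Op J) (hb : b ∈ B), g' b = g ⟨b, hb⟩) :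
    Fin.IsTensHom (sa A) (sa B) f' g' (ex F) := by
  refine ⟨isHom_ex F, ?_⟩
  intro a ha b hb c hc
  have hc' : (show Op (I × J) from c) ∈ spat A B := mem_spat ha hb hc
  have h1 := hf a ha
  have h2 := hg b hb
  have h3 := ex_eq F c hc'
  rw [h1, h2, h3]
  exact h ⟨a, ha⟩ ⟨b, hb⟩ ⟨c, hc'⟩ hc

theorem spans {I : Type} {S T : Set (Op I)} {B : StarSubalgebra ℂ (Op I)} (hST : S ⊆ T)
    (h : (B : Set (Op I)) ⊆ closure (Submodule.span ℂ S : Set (Op I))) :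
    Fin.Spans (T : Set (Fin.Op I)) (sa B) := by
  intro b hb
  exact closure_mono (Submodule.span_mono (R := ℂ) hST) (h hb)

theorem same {I J K : Type} {c c' : Op ((I × J) × K)} {d d' : Op (I × (J × K))}
    (hc : c' = c) (hd : d' = d) (h : SameAssoc c d) :
    Fin.SameAssoc (c' : Fin.Op ((I × J) × K)) (d' : Fin.Op (I × (J × K))) := by
  subst hc hd
  exact h

theorem memc {I : Type} {A : StarSubalgebra ℂ (Op I)} {a b : Op I} (h : b = a) (ha : a ∈ A) :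
    (b : Fin.Op I) ∈ sa A := by
  subst h
  exact ha

noncomputable def cqg (Q : CQG) : Fin.CQG where
  I := Q.I
  H := sa Q.H
  isClosed := Q.isClosed
  Δ := ex Q.Δ
  hom := isHom_ex Q.Δ
  mem := fun h hh => memc (ex_eq Q.Δ h hh) (Q.mem ⟨h, hh⟩)
  coassoc := by
    obtain ⟨F, G, hF, hG, hS⟩ := Q.coassoc
    refine ⟨ex F, ex G, tensHom hF (fun a ha => ex_eq _ a ha) (fun b hb => rfl),
      tensHom hG (fun a ha => rfl) (fun b hb => ex_eq _ b hb), ?_⟩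
    intro h hh
    have h1 := ex_eq Q.Δ h hh
    have h2 := ex_eq F (Q.Δ ⟨h, hh⟩) (Q.mem ⟨h, hh⟩)
    have h3 := ex_eq G (Q.Δ ⟨h, hh⟩) (Q.mem ⟨h, hh⟩)
    exact same ((congrArg (ex F) h1).trans h2) ((congrArg (ex G) h1).trans h3) (hS ⟨h, hh⟩)
  dense₁ := by
    refine spans ?_ Q.dense₁
    rintro x ⟨h, k, t, ht, hx⟩
    exact ⟨h.1, h.2, k.1, k.2, t, ht, hx.trans (congrArg (fun y : Op (Q.I × Q.I) => y * t)
      (ex_eq Q.Δ h.1 h.2).symm)⟩
  dense₂ := by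
    refine spans ?_ Q.dense₂
    rintro x ⟨h, k, t, ht, hx⟩
    exact ⟨h.1, h.2, k.1, k.2, t, ht, hx.trans (congrArg (fun y : Op (Q.I × Q.I) => y * t)
      (ex_eq Q.Δ h.1 h.2).symm)⟩

noncomputable def coa {Q : CQG} (α : Coaction Q) : Fin.Coaction (cqg Q) where
  J := α.J
  A := sa α.A
  isClosed := α.isClosed
  δ := ex α.δ
  hom := isHom_ex α.δ
  inj := fun a ha b hb hab => by
    have h1 := ex_eq α.δ a ha
    have h2 := ex_eq α.δ b hb
    have h3 : α.δ ⟨a, ha⟩ = α.δ ⟨b, hb⟩ := h1.symm.trans (hab.trans h2)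
    exact congrArg Subtype.val (α.inj h3)
  mem := fun h hh => memc (ex_eq α.δ h hh) (α.mem ⟨h, hh⟩)
  coassoc := by
    obtain ⟨F, G, hF, hG, hS⟩ := α.coassoc
    refine ⟨ex F, ex G, tensHom hF (fun a ha => ex_eq _ a ha) (fun b hb => rfl),
      tensHom hG (fun a ha => rfl) (fun b hb => ex_eq _ b hb), ?_⟩
    intro h hh
    have h1 := ex_eq α.δ h hh
    have h2 := ex_eq F (α.δ ⟨h, hh⟩) (α.mem ⟨h, hh⟩)
    have h3 := ex_eq G (α.δ ⟨h, hh⟩) (α.mem ⟨h, hh⟩)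
    exact same ((congrArg (ex F) h1).trans h2) ((congrArg (ex G) h1).trans h3) (hS ⟨h, hh⟩)
  dense := by
    refine spans ?_ α.dense
    rintro x ⟨h, k, t, ht, hx⟩
    exact ⟨h.1, h.2, k.1, k.2, t, ht, hx.trans (congrArg (fun y : Op (α.J × Q.I) => y * t)
      (ex_eq α.δ h.1 h.2).symm)⟩

theorem main (h : ∃ (Q : CQG) (α : Coaction Q), Q.NonTrivial ∧ Nonempty α.J ∧ α.Free ∧
      ∃ φ : α.A →⋆ₐ[ℂ] C(unitInterval, Op (α.J × Q.I)), α.IsJoinMap φ) :
    ∃ (Q : Fin.CQG) (α : Fin.Coaction Q), Q.NonTrivial ∧ Nonempty α.J ∧ α.Free ∧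
      ∃ φ : Fin.Op α.J → unitInterval → Fin.Op (α.J × Q.I), α.IsJoinMap φ := by
  classical
  obtain ⟨Q, α, hnt, hJ, hfree, φ, hφ, hφ2⟩ := h
  refine ⟨cqg Q, coa α, hnt, hJ, ?_, ?_⟩
  · refine spans ?_ hfree
    rintro x ⟨a, b, t, ht, hx⟩
    exact ⟨a.1, a.2, b.1, b.2, t, ht, hx.trans (congrArg (fun y : Op (α.J × Q.I) => t * y)
      (ex_eq α.δ b.1 b.2).symm)⟩
  · let ψ : Fin.Op α.J → unitInterval → Fin.Op (α.J × Q.I) := fun a t =>
      if h : (show Op α.J from a) ∈ α.A then φ ⟨a, h⟩ t else (0 : Op (α.J × Q.I))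
    have hψ : ∀ (a : Op α.J) (ha : a ∈ α.A) t, ψ a t = φ ⟨a, ha⟩ t := fun a ha t => dif_pos ha
    refine ⟨ψ, ?_, ?_⟩
    · intro a ha
      obtain ⟨j1, ⟨h, hh, j2⟩, b, j3⟩ := hφ ⟨a, ha⟩
      have e1 : ψ a = fun t => φ ⟨a, ha⟩ t := funext fun t => hψ a ha t
      rw [e1]
      refine ⟨(φ ⟨a, ha⟩).continuous, j1, ⟨h, hh, j2⟩, b.1, b.2, ?_⟩
      have h1 := ex_eq α.δ b.1 b.2
      exact j3.trans h1.symm
    · intro t
      obtain ⟨φt, F, G, e1, hF, hG, hS⟩ := hφ2 t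
      have e2 : (fun a => ψ a t) = ex φt := by
        funext a
        by_cases ha : (show Op α.J from a) ∈ α.A
        · exact (hψ a ha t).trans ((e1 ⟨a, ha⟩).symm.trans (ex_eq φt a ha).symm)
        · have e3 : ex φt a = (0 : Op (α.J × Q.I)) := dif_neg ha
          have e4 : ψ a t = (0 : Op (α.J × Q.I)) := dif_neg ha
          exact e4.trans e3.symm
      have key : Fin.IsHom (sa α.A) (ex φt) ∧
          ∃ (F : Fin.Op (α.J × Q.I) → Fin.Op ((α.J × Q.I) × Q.I))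
            (G : Fin.Op (α.J × Q.I) → Fin.Op (α.J × (Q.I × Q.I))),
            Fin.IsTensHom (sa α.A) (sa Q.H) (ex φt) id F ∧
            Fin.IsTensHom (sa α.A) (sa Q.H) id (ex Q.Δ) G ∧
              ∀ a ∈ sa α.A, Fin.SameAssoc (F (ex α.δ a)) (G (ψ a t)) := by
        refine ⟨isHom_ex φt, ex F, ex G, tensHom hF (fun a ha => ex_eq _ a ha) (fun b hb => rfl),
          tensHom hG (fun a ha => rfl) (fun b hb => ex_eq _ b hb), ?_⟩
        intro a ha
        have h1 := ex_eq α.δ a ha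
        have h2 := ex_eq F (α.δ ⟨a, ha⟩) (α.mem ⟨a, ha⟩)
        have h3 := ex_eq G (φ ⟨a, ha⟩ t) ((hφ ⟨a, ha⟩).1 t)
        exact same ((congrArg (ex F) h1).trans h2) ((congrArg (ex G) (hψ a ha t)).trans h3)
          (hS ⟨a, ha⟩)
      rw [← e2] at key
      exact key

end Pool.Agent.W744.BU.Trans
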