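import Pool.Agent.W744.BU.Stm

set_option autoImplicit false

open Set Filter Topology

namespace Pool.Agent.W744.BU

theorem up_inj (D : Dat) (t : unitInterval) : Function.Injective (up D t) := by
  rintro ⟨⟨n, i⟩, g⟩ ⟨⟨n', i'⟩, g'⟩ h
  simp only [up] at h
  have h1 : n = n' := by
    have := congrArg Sigma.fst h
    simpa using this
  subst h1
  have h2 := eq_of_heq (Sigma.mk.inj h).2
  have h3 : ((t, (i, g)) : unitInterval × _) = (t, (i', g')) := by
    cases h2
    rfl
  simp at h3
  rw [h3.1, h3.2]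

theorem upG_inj (D : Dat) (t : unitInterval) : Function.Injective (upG D t) := by
  rintro ⟨p, g⟩ ⟨p', g'⟩ h
  simp only [upG, Prod.mk.injEq] at h
  rw [up_inj D t h.1, h.2]

/-- All the parts. -/
structure Parts : Prop where
  ENT : S_ENT
  TENS : S_TENS
  COMP : S_COMP
  DOP : S_DOP
  LAM : S_LAM
  PP : S_PP
  DU : S_DU
  UN : S_UN
  GR : S_GR
  CO : S_CO
  PHI : S_PHI
  EQ : S_EQ

theorem final (P : Parts) (D : Dat) :
    ∃ (Q : CQG) (α : Coaction Q), Q.NonTrivial ∧ Nonempty α.J ∧ α.Free ∧
      ∃ φ : α.A →⋆ₐ[ℂ] C(unitInterval, Op (α.J × Q.I)), α.IsJoinMap φ := by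
  classical
  obtain ⟨eLam, lam1, lamMul, lamStar, lamU, lamD⟩ := P.LAM D.G
  obtain ⟨eDG, DG, hDG, nDG⟩ := P.DOP D.G D.G id
  obtain ⟨eDJ, DJ, hDJ, nDJ⟩ := P.DOP D.G ((tot D).I × D.G) Prod.snd
  obtain ⟨g1, g2, g3, g4⟩ := P.GR D.G D.G id lam lamU lamD
  have hU : ∀ g, UU (tot D) g ∈ unitary (Op ((tot D).I × D.G)) :=
    (P.PP D (tot D) (P.UN D).2).1
  obtain ⟨k1, k2, k3, k4⟩ := P.GR D.G ((tot D).I × D.G) Prod.snd (UU (tot D)) hU (P.DU D.G (tot D))
  obtain ⟨FG, KG, FG1, KG1, KG2, SG⟩ := P.CO D.G D.G id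
  obtain ⟨FJ, KJ, FJ1, KJ1, KJ2, SJ⟩ := P.CO D.G ((tot D).I × D.G) Prod.snd
  obtain ⟨φ, p1, p2, p3, p4⟩ := P.PHI D
  have hten : ∀ {I J : Type} (a : Op I) (b : Op J), IsTens a b (tens a b) :=
    fun a b => (P.TENS.1 _ _ a b).1
  let Q : CQG :=
    { I := D.G
      H := CA lam
      isClosed := StarSubalgebra.isClosed_topologicalClosure _
      Δ := DG.comp (CA lam).subtype
      mem := by
        intro h
        have := g1 h h.2
        rw [← hDG] at this
        exact this
      coassoc := by
        refine ⟨FG.comp (spat (CA lam) (CA lam)).subtype, KG.comp (spat (CA lam) (CA lam)).subtype,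
          ?_, ?_, ?_⟩
        · intro a b c h
          have := FG1 _ _ _ h
          rw [← hDG] at this
          exact this
        · intro a b c h
          have := KG1 _ _ _ h
          rw [← hDG] at this
          exact this
        · intro h
          have := SG h
          rw [← hDG] at this
          exact this
      dense₁ := by
        refine g2.trans (closure_mono ?_)
        refine Submodule.span_mono ?_
        rintro x ⟨a, ha, h, hh, rfl⟩
        refine ⟨⟨a, ha⟩, ⟨h, hh⟩, tens 1 h, hten _ _, ?_⟩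
        rw [← hDG]
        rfl
      dense₂ := by
        refine g3.trans (closure_mono ?_)
        refine Submodule.span_mono ?_
        rintro x ⟨a, ha, b, hb, rfl⟩
        refine ⟨⟨a, ha⟩, ⟨b, hb⟩, tens b 1, hten _ _, ?_⟩
        rw [← hDG]
        rfl }
  let α : Coaction Q :=
    { J := (tot D).I × D.G
      A := CA (UU (tot D))
      isClosed := StarSubalgebra.isClosed_topologicalClosure _
      δ := DJ.comp (CA (UU (tot D))).subtype
      inj := by
        intro a b h
        have h1 : DJ ((a : Op ((tot D).I × D.G)) - b) = 0 := by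
          rw [map_sub, sub_eq_zero]
          exact h
        have h2 : ‖(a : Op ((tot D).I × D.G)) - b‖ = 0 := by
          rw [← nDJ, h1, norm_zero]
        rw [norm_eq_zero, sub_eq_zero] at h2
        exact Subtype.ext h2
      mem := by
        intro a
        have := k1 a a.2
        rw [← hDJ] at this
        exact this
      coassoc := by
        refine ⟨FJ.comp (spat (CA (UU (tot D))) (CA lam)).subtype,
          KJ.comp (spat (CA (UU (tot D))) (CA lam)).subtype, ?_, ?_, ?_⟩
        · intro a b c h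
          have := FJ1 _ _ _ h
          rw [← hDJ] at this
          exact this
        · intro a b c h
          have := KJ1 _ _ _ h
          rw [← hDG] at this
          exact this
        · intro h
          have := SJ h
          rw [← hDJ] at this
          exact this
      dense := by
        refine k2.trans (closure_mono ?_)
        refine Submodule.span_mono ?_
        rintro x ⟨a, ha, h, hh, rfl⟩
        refine ⟨⟨a, ha⟩, ⟨h, hh⟩, tens 1 h, hten _ _, ?_⟩
        rw [← hDJ]
        rfl }
  refine ⟨Q, α, ?_, ?_, ?_, φ, ?_⟩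
  · refine ⟨lam (D.b * D.a * D.b⁻¹ * D.a⁻¹), ?_, ?_⟩
    · exact StarSubalgebra.le_topologicalClosure _
        (StarAlgebra.subset_adjoin _ _ (mem_range_self _))
    · intro z hz
      have h1 := eLam (D.b * D.a * D.b⁻¹ * D.a⁻¹) (D.b * D.a * D.b⁻¹ * D.a⁻¹) 1
      rw [mul_one, if_pos rfl, hz] at h1
      have h2 : entry (z • (1 : Op D.G)) (D.b * D.a * D.b⁻¹ * D.a⁻¹) 1 =
          z * entry (1 : Op D.G) (D.b * D.a * D.b⁻¹ * D.a⁻¹) 1 := rfl
      have h3 := P.ENT.2.2.2.2 D.G (D.b * D.a * D.b⁻¹ * D.a⁻¹) 1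
      rw [if_neg D.hab] at h3
      have h4 : (1 : ℂ) = 0 := by
        rw [← h1]
        refine h2.trans ?_
        rw [h3, mul_zero]
      exact one_ne_zero h4
  · exact ⟨(⟨0, ()⟩, 1)⟩
  · refine k4.trans (closure_mono ?_)
    refine Submodule.span_mono ?_
    rintro x ⟨a, ha, b, hb, rfl⟩
    refine ⟨⟨a, ha⟩, ⟨b, hb⟩, tens a 1, hten _ _, ?_⟩
    rw [← hDJ]
    rfl
  · have hJ : ∀ a, α.InJoin (φ a) := by
      intro a
      refine ⟨fun t => p2 a t, p3 a, ?_⟩
      obtain ⟨b, hb, h⟩ := p4 a
      refine ⟨⟨b, hb⟩, ?_⟩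
      rw [← hDJ] at h
      exact h
    refine ⟨hJ, fun t => ?_⟩
    obtain ⟨F, F1, F2⟩ := P.EQ D t
    let φt : CA (UU (tot D)) →⋆ₐ[ℂ] Op (((tot D).I × D.G) × D.G) :=
      { toFun := fun a => φ a t
        map_one' := congrArg (fun f => f t) φ.map_one'
        map_mul' := fun a b => congrArg (fun f => f t) (φ.map_mul' a b)
        map_zero' := congrArg (fun f => f t) φ.map_zero'
        map_add' := fun a b => congrArg (fun f => f t) (φ.map_add' a b)
        commutes' := fun z => congrArg (fun f => f t) (φ.commutes' z)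
        map_star' := fun a => congrArg (fun f => f t) (φ.map_star' a) }
    refine ⟨φt, F, KJ.comp (spat (CA (UU (tot D))) (CA lam)).subtype, fun a => rfl, ?_, ?_, ?_⟩
    · intro a b c h
      have := F1 a a.2 b b.2 c h
      rw [← p1] at this
      exact this
    · intro a b c h
      have := KJ1 _ _ _ h
      rw [← hDG] at this
      exact this
    · intro a i j k i' j' k'
      have e1 := F2 ⟨α.δ a, α.mem a⟩ (i, j) k (i', j') k'
      have e2 := KJ2 (φ a t) i j k i' j' k'
      refine e1.trans (Eq.trans ?_ e2.symm)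
      rw [p1, (P.COMP _ _ (upG D t) (upG_inj D t)).1]
      have e3 := eDJ (a : Op ((tot D).I × D.G)) (upG D t (i, j), k) (upG D t (i', j'), k')
      rw [← hDJ] at e3
      exact e3

end Pool.Agent.W744.BU
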