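import Mathlib

/-!
Noncommutative Borsuk-Ulam type conjecture of type 1 (MP_90d4f1_an): definitions.

All C*-algebras are given concretely, as norm closed unital star subalgebras of the algebra of
bounded operators on a Hilbert space `ℓ²(I)`; the minimal tensor product of two of them is the
spatial one, on `ℓ²(I × J) = ℓ²(I) ⊗ ℓ²(J)`.
-/

set_option autoImplicit false

open Set Filter Topology

namespace Pool.Agent.W744.BU

/-- The Hilbert space `ℓ²(I)`. -/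
abbrev L2 (I : Type) : Type := lp (fun _ : I => ℂ) 2

/-- The bounded operators on `ℓ²(I)`. -/
abbrev Op (I : Type) : Type := L2 I →L[ℂ] L2 I

open Classical in
/-- The standard basis vector of `ℓ²(I)`. -/
noncomputable def e {I : Type} (i : I) : L2 I := lp.single 2 i (1 : ℂ)

/-- The matrix entries of an operator. -/
noncomputable def entry {I : Type} (a : Op I) (i j : I) : ℂ := (a (e j)) i

/-- `c` is the operator `a ⊗ b` on `ℓ²(I × J) = ℓ²(I) ⊗ ℓ²(J)`. -/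
def IsTens {I J : Type} (a : Op I) (b : Op J) (c : Op (I × J)) : Prop :=
  ∀ i k i' k', entry c (i, k) (i', k') = entry a i i' * entry b k k'

/-- The minimal (spatial) tensor product of two concrete C*-algebras: the C*-algebra generated
by the operators `a ⊗ b`. -/
noncomputable def spat {I J : Type} (A : StarSubalgebra ℂ (Op I)) (B : StarSubalgebra ℂ (Op J)) :
    StarSubalgebra ℂ (Op (I × J)) :=
  (StarAlgebra.adjoin ℂ {c : Op (I × J) | ∃ a ∈ A, ∃ b ∈ B, IsTens a b c}).topologicalClosure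

/-- `F` is the tensor product `f ⊗ g` of two unital star homomorphisms. -/
def IsTensHom {I J I' J' : Type} {A : StarSubalgebra ℂ (Op I)} {B : StarSubalgebra ℂ (Op J)}
    (f : A →⋆ₐ[ℂ] Op I') (g : B →⋆ₐ[ℂ] Op J') (F : spat A B →⋆ₐ[ℂ] Op (I' × J')) : Prop :=
  ∀ (a : A) (b : B) (c : spat A B), IsTens (a : Op I) (b : Op J) (c : Op (I × J)) →
    IsTens (f a) (g b) (F c)

/-- The operators `c` on `ℓ²((I × J) × K)` and `d` on `ℓ²(I × (J × K))` correspond to each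
other. -/
def SameAssoc {I J K : Type} (c : Op ((I × J) × K)) (d : Op (I × (J × K))) : Prop :=
  ∀ i j k i' j' k', entry c ((i, j), k) ((i', j'), k') = entry d (i, (j, k)) (i', (j', k'))

/-- Compact quantum groups `(H, Δ)`. -/
structure CQG where
  I : Type
  H : StarSubalgebra ℂ (Op I)
  isClosed : IsClosed (H : Set (Op I))
  Δ : H →⋆ₐ[ℂ] Op (I × I)
  mem : ∀ h, Δ h ∈ spat H H
  coassoc : ∃ (F : spat H H →⋆ₐ[ℂ] Op ((I × I) × I)) (G : spat H H →⋆ₐ[ℂ] Op (I × (I × I))),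
    IsTensHom Δ H.subtype F ∧ IsTensHom H.subtype Δ G ∧
      ∀ h, SameAssoc (F ⟨Δ h, mem h⟩) (G ⟨Δ h, mem h⟩)
  dense₁ : (spat H H : Set (Op (I × I))) ⊆
    closure (Submodule.span ℂ {x | ∃ (h k : H) (t : Op (I × I)),
      IsTens 1 (k : Op I) t ∧ x = Δ h * t} : Set (Op (I × I)))
  dense₂ : (spat H H : Set (Op (I × I))) ⊆
    closure (Submodule.span ℂ {x | ∃ (h k : H) (t : Op (I × I)),
      IsTens (k : Op I) 1 t ∧ x = Δ h * t} : Set (Op (I × I)))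

/-- `H ≠ ℂ 1`. -/
def CQG.NonTrivial (Q : CQG) : Prop := ∃ h ∈ Q.H, ∀ z : ℂ, h ≠ z • (1 : Op Q.I)

/-- Coactions of a compact quantum group on unital C*-algebras. -/
structure Coaction (Q : CQG) where
  J : Type
  A : StarSubalgebra ℂ (Op J)
  isClosed : IsClosed (A : Set (Op J))
  δ : A →⋆ₐ[ℂ] Op (J × Q.I)
  inj : Function.Injective δ
  mem : ∀ a, δ a ∈ spat A Q.H
  coassoc : ∃ (F : spat A Q.H →⋆ₐ[ℂ] Op ((J × Q.I) × Q.I))
      (G : spat A Q.H →⋆ₐ[ℂ] Op (J × (Q.I × Q.I))),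
    IsTensHom δ Q.H.subtype F ∧ IsTensHom A.subtype Q.Δ G ∧
      ∀ a, SameAssoc (F ⟨δ a, mem a⟩) (G ⟨δ a, mem a⟩)
  dense : (spat A Q.H : Set (Op (J × Q.I))) ⊆
    closure (Submodule.span ℂ {x | ∃ (a : A) (h : Q.H) (t : Op (J × Q.I)),
      IsTens 1 (h : Op Q.I) t ∧ x = δ a * t} : Set (Op (J × Q.I)))

/-- Free coactions: the span of `(x ⊗ 1) δ(y)` is dense in `A ⊗ H`. -/
def Coaction.Free {Q : CQG} (α : Coaction Q) : Prop :=
  (spat α.A Q.H : Set (Op (α.J × Q.I))) ⊆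
    closure (Submodule.span ℂ {x | ∃ (a b : α.A) (t : Op (α.J × Q.I)),
      IsTens (a : Op α.J) 1 t ∧ x = t * α.δ b} : Set (Op (α.J × Q.I)))

/-- The path `f : [0,1] → A ⊗ H` belongs to the equivariant join `A *_δ H`:
`f 0 ∈ ℂ ⊗ H` and `f 1 ∈ δ(A)`. -/
def Coaction.InJoin {Q : CQG} (α : Coaction Q) (f : C(unitInterval, Op (α.J × Q.I))) : Prop :=
  (∀ t, f t ∈ spat α.A Q.H) ∧ (∃ h ∈ Q.H, IsTens 1 h (f 0)) ∧ ∃ a : α.A, f 1 = α.δ a

/-- `φ : A → A *_δ H` is an equivariant unital star homomorphism: `(id ⊗ Δ) (φ(a)(t)) =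
(φ_t ⊗ id) (δ(a))` for all `a` and `t`, where `φ_t(a) = φ(a)(t)`. -/
def Coaction.IsJoinMap {Q : CQG} (α : Coaction Q)
    (φ : α.A →⋆ₐ[ℂ] C(unitInterval, Op (α.J × Q.I))) : Prop :=
  ∃ hφ : ∀ a, α.InJoin (φ a), ∀ t : unitInterval,
    ∃ (φt : α.A →⋆ₐ[ℂ] Op (α.J × Q.I)) (F : spat α.A Q.H →⋆ₐ[ℂ] Op ((α.J × Q.I) × Q.I))
      (G : spat α.A Q.H →⋆ₐ[ℂ] Op (α.J × (Q.I × Q.I))),
      (∀ a, φt a = φ a t) ∧ IsTensHom φt Q.H.subtype F ∧ IsTensHom α.A.subtype Q.Δ G ∧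
        ∀ a, SameAssoc (F ⟨α.δ a, α.mem a⟩) (G ⟨φ a t, (hφ a).1 t⟩)

end Pool.Agent.W744.BU
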