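import Pool.Agent.W744.BU.Tool

set_option autoImplicit false

open Set Filter Topology

namespace Pool.Agent.W744.BU

/-! ### Operators on `ℓ²` -/

open Classical in
/-- BU-ENT -/
def S_ENT : Prop :=
  (∀ (I : Type) (a b : Op I), (∀ i j, entry a i j = entry b i j) → a = b) ∧
  (∀ (I : Type) (a : Op I) (i j : I), entry (star a) i j = star (entry a j i)) ∧
  (∀ (I : Type) (a b : Op I) (i j : I),
    HasSum (fun k => entry a i k * entry b k j) (entry (a * b) i j)) ∧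
  (∀ (I : Type) (a : Op I) (i j : I), ‖entry a i j‖ ≤ ‖a‖) ∧
  (∀ (I : Type) (i j : I), entry (1 : Op I) i j = if i = j then 1 else 0)

/-- BU-TENS -/
def S_TENS : Prop :=
  (∀ (I J : Type) (a : Op I) (b : Op J), IsTens a b (tens a b) ∧ ‖tens a b‖ ≤ ‖a‖ * ‖b‖) ∧
  (∀ (I J : Type) (a a' : Op I) (b b' : Op J), tens (a * a') (b * b') = tens a b * tens a' b') ∧
  (∀ (I J : Type) (a : Op I) (b : Op J), tens (star a) (star b) = star (tens a b)) ∧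
  (∀ (I J : Type), tens (1 : Op I) (1 : Op J) = 1) ∧
  (∀ (I J : Type) (a a' : Op I) (b : Op J), tens (a + a') b = tens a b + tens a' b) ∧
  (∀ (I J : Type) (a : Op I) (b b' : Op J), tens a (b + b') = tens a b + tens a b') ∧
  (∀ (I J : Type) (z : ℂ) (a : Op I) (b : Op J),
    tens (z • a) b = z • tens a b ∧ tens a (z • b) = z • tens a b) ∧
  (∀ (I J : Type), Nonempty I → ∀ b : Op J, ‖tens (1 : Op I) b‖ = ‖b‖)

/-- BU-COMP -/
def S_COMP : Prop :=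
  ∀ (J' J : Type) (ι : J' → J), Function.Injective ι →
    (∀ (a : Op J) i j, entry (comp ι a) i j = entry a (ι i) (ι j)) ∧
    (∀ a b : Op J, ‖comp ι a - comp ι b‖ ≤ ‖a - b‖) ∧
    ∃ R : StarSubalgebra ℂ (Op J), IsClosed (R : Set (Op J)) ∧ (∀ a, a ∈ R ↔ Red ι a) ∧
      ∃ C : R →⋆ₐ[ℂ] Op J', ∀ a : R, C a = comp ι (a : Op J)

/-- BU-BLK -/
def S_BLK : Prop :=
  ∀ (N : Type) (I : N → Type) (f : ∀ n, Op (I n)) (C : ℝ), (∀ n, ‖f n‖ ≤ C) →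
    (∀ n i j, entry (blk f) ⟨n, i⟩ ⟨n, j⟩ = entry (f n) i j) ∧
    (∀ p q, p.1 ≠ q.1 → entry (blk f) p q = 0) ∧
    ((∀ n, f n ∈ unitary (Op (I n))) → blk f ∈ unitary (Op (Σ n, I n)))

open Classical in
/-- BU-DOP -/
def S_DOP : Prop :=
  ∀ (G J : Type) [Group G] (d : J → G),
    (∀ (a : Op J) (p q : J × G), entry (Dop d a) p q =
      if (d p.1)⁻¹ * p.2 = (d q.1)⁻¹ * q.2 then entry a p.1 q.1 else 0) ∧
    ∃ D : Op J →⋆ₐ[ℂ] Op (J × G), (∀ a, D a = Dop d a) ∧ ∀ a, ‖D a‖ = ‖a‖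

open Classical in
/-- BU-LAM -/
def S_LAM : Prop :=
  ∀ (G : Type) [Group G],
    (∀ g h k : G, entry (lam g) h k = if h = g * k then 1 else 0) ∧
    lam (1 : G) = 1 ∧ (∀ g h : G, lam (g * h) = lam g * lam h) ∧
    (∀ g : G, star (lam g) = lam g⁻¹) ∧ (∀ g : G, lam g ∈ unitary (Op G)) ∧
    (∀ g : G, Dop (id : G → G) (lam g) = tens (lam g) (lam g))

/-! ### The path -/

/-- BU-SCHUR -/
def S_SCHUR : Prop :=
  ∀ (B : Type) [CStarAlgebra B] (A C c y : B), y ∈ unitary B → star C * C + A * star A = 1 →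
    IsUnit (1 + (star A * (y - 1) * A + star A * (y - 1) * star C * star y * c)) →
      IsUnit (tau A C c y)

/-- BU-BR -/
def S_BR : Prop :=
  ∀ (B : Type) [CStarAlgebra B] (x : B), x ∈ unitary B → ∀ r : ℝ, 0 ≤ r → r < 1 →
    bF r x ∈ unitary B ∧ (r = 0 → bF r x = -x) ∧
    ∀ q : ℝ, 0 ≤ q → q ≤ 1 → star (BF q r x) * BF q r x + AF q r x * star (AF q r x) = 1

/-- BU-QBQ -/
def S_QBQ : Prop :=
  ∀ (B C : Type) [CStarAlgebra B] [CStarAlgebra C] (f : B →⋆ₐ[ℂ] C) (x : B) (Q : C),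
    x ∈ unitary B → (∀ n : ℕ, 1 ≤ n → Q * f x ^ n * Q = 0) → Q * Q = Q →
      ∀ r : ℝ, 0 ≤ r → r < 1 → Q * f (bF r x) * Q = (r : ℂ) • Q

/-- BU-EST -/
def S_EST : Prop :=
  ∀ (B : Type) [CStarAlgebra B] (b y Q : B), b ∈ unitary B → y ∈ unitary B → Q * Q = Q →
    star Q = Q → Q * b * Q = ((49 / 50 : ℝ) : ℂ) • Q → (1 - Q) * y * (1 - Q) = 0 →
    ∀ q : ℝ, 0 ≤ q → q ≤ 1 → ∀ A C c : B,
      A = ((Real.sqrt (q * (1 - q)) : ℝ) : ℂ) • ((1 : B) - b) →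
      C = (q : ℂ) • (1 : B) + ((1 - q : ℝ) : ℂ) • b →
      c = (((q + (1 - q) * (49 / 50))⁻¹ : ℝ) : ℂ) • A →
      ‖star A * (y - 1) * A + star A * (y - 1) * star C * star y * c‖ < 1

/-- BU-TAU -/
def S_TAU : Prop :=
  ∀ (B C : Type) [CStarAlgebra B] [CStarAlgebra C] (f : B →⋆ₐ[ℂ] C) (x y : B) (Q : C),
    (∀ z, ‖f z‖ = ‖z‖) → x ∈ unitary B → y ∈ unitary B →
    (∀ n : ℕ, 1 ≤ n → Q * f x ^ n * Q = 0) → Q * Q = Q → star Q = Q →
    (1 - Q) * f y * (1 - Q) = 0 →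
      ∀ t : ℝ, 0 ≤ t → t ≤ 1 → IsUnit (tauF (qq t) (rr t) x y)

/-- BU-POLA -/
def S_POLA : Prop :=
  (∀ (B : Type) [CStarAlgebra B] (g : B), IsUnit g → polF g ∈ unitary B) ∧
  (∀ (B : Type) [CStarAlgebra B] (g : B), g ∈ unitary B → polF g = g) ∧
  (∀ (B C : Type) [CStarAlgebra B] [CStarAlgebra C] (f : B →⋆ₐ[ℂ] C) (g : B), IsUnit g →
    f (polF g) = polF (f g))

/-- BU-POLB -/
def S_POLB : Prop :=
  ∀ (B : Type) [CStarAlgebra B] (g : unitInterval → B), Continuous g → (∀ t, IsUnit (g t)) →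
    Continuous fun t => polF (g t)

/-- BU-TC -/
def S_TC : Prop :=
  (∀ (B : Type) [CStarAlgebra B] (x y : B), x ∈ unitary B → y ∈ unitary B →
    Continuous (fun t : unitInterval => tauF (qq (t : ℝ)) (rr (t : ℝ)) x y) ∧
    tauF (qq 0) (rr 0) x y = 1 ∧ tauF (qq 1) (rr 1) x y = y * x * star y * star x) ∧
  (∀ (B C : Type) [CStarAlgebra B] [CStarAlgebra C] (f : B →⋆ₐ[ℂ] C) (x y : B),
    x ∈ unitary B → ∀ t : ℝ, 0 ≤ t → t ≤ 1 →
      f (tauF (qq t) (rr t) x y) = tauF (qq t) (rr t) (f x) (f y))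

/-- The family `u` of unitaries is good. -/
def Good (D : Dat) {B : Type} [CStarAlgebra B] (u : D.G → B) : Prop :=
  (∀ g, u g ∈ unitary B) ∧ ∀ t : ℝ, 0 ≤ t → t ≤ 1 → IsUnit (tauF (qq t) (rr t) (u D.a) (u D.b))

/-- BU-YF -/
def S_YF : Prop :=
  ∀ (D : Dat) (B : Type) [CStarAlgebra B] (u : D.G → B), Good D u → ∀ g,
    Continuous (fun t : unitInterval => YF D (t : ℝ) u g) ∧
    (∀ t : ℝ, 0 ≤ t → t ≤ 1 → YF D t u g ∈ unitary B) ∧ YF D 0 u g = 1 ∧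
    (∀ t : ℝ, 0 ≤ t → t ≤ 1 → ∀ (C : Type) [CStarAlgebra C] (f : B →⋆ₐ[ℂ] C),
      f (YF D t u g) = YF D t (fun h => f (u h)) g) ∧
    YF D 1 u g = Ex.ev u (u D.b * u D.a * star (u D.b) * star (u D.a)) (D.ex g)

/-! ### The example -/

/-- BU-PP -/
def S_PP : Prop :=
  ∀ (D : Dat) (R : Rep D.G), (∀ g, R.X g ∈ unitary (Op R.I)) →
    (∀ g, UU R g ∈ unitary (Op (R.I × D.G))) ∧
    ∀ (B : Type) [CStarAlgebra B] (f : B →⋆ₐ[ℂ] Op (R.I × D.G)) (u : D.G → B),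
      (∀ z, ‖f z‖ = ‖z‖) → (∀ g, f (u g) = UU R g) → Good D u

/-- BU-DU -/
def S_DU : Prop :=
  ∀ (G : Type) [Group G] (R : Rep G) (g : G),
    Dop (Prod.snd : R.I × G → G) (UU R g) = tens (UU R g) (lam g)

/-- BU-UN -/
def S_UN : Prop :=
  ∀ (D : Dat), (∀ n g, (seqR D n).X g ∈ unitary (Op (seqR D n).I)) ∧
    ∀ g, (tot D).X g ∈ unitary (Op (tot D).I)

/-- BU-UP -/
def S_UP : Prop :=
  ∀ (D : Dat) (t : unitInterval) (g : D.G), Red (up D t) ((tot D).X g) ∧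
    comp (up D t) ((tot D).X g) = YF D (t : ℝ) (UU (tot D)) g

/-- The inclusion of index sets for `A ⊗ H`. -/
def upG (D : Dat) (t : unitInterval) (p : ((tot D).I × D.G) × D.G) : (tot D).I × D.G :=
  (up D t p.1, p.2)

/-- BU-SPA: finite sums of `a ⊗ λ_h` are dense in `A ⊗ H`. -/
def S_SPA : Prop :=
  ∀ (G J : Type) [Group G] (A : StarSubalgebra ℂ (Op J)),
    (spat A (CA (lam : G → Op G)) : Set (Op (J × G))) ⊆
      closure (Submodule.span ℂ {x | ∃ a ∈ A, ∃ h : G, x = tens a (lam h)} : Set (Op (J × G)))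

/-- BU-GR -/
def S_GR : Prop :=
  ∀ (G J : Type) [Group G] (d : J → G) (U : G → Op J), (∀ g, U g ∈ unitary (Op J)) →
    (∀ g, Dop d (U g) = tens (U g) (lam g)) →
    (∀ a ∈ CA U, Dop d a ∈ spat (CA U) (CA (lam : G → Op G))) ∧
    (spat (CA U) (CA (lam : G → Op G)) : Set (Op (J × G))) ⊆
      closure (Submodule.span ℂ {x | ∃ a ∈ CA U, ∃ h ∈ CA (lam : G → Op G),
        x = Dop d a * tens 1 h} : Set (Op (J × G))) ∧
    (spat (CA U) (CA (lam : G → Op G)) : Set (Op (J × G))) ⊆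
      closure (Submodule.span ℂ {x | ∃ a ∈ CA U, ∃ b ∈ CA U,
        x = Dop d a * tens b 1} : Set (Op (J × G))) ∧
    (spat (CA U) (CA (lam : G → Op G)) : Set (Op (J × G))) ⊆
      closure (Submodule.span ℂ {x | ∃ a ∈ CA U, ∃ b ∈ CA U,
        x = tens a 1 * Dop d b} : Set (Op (J × G)))

open Classical in
/-- BU-CO -/
def S_CO : Prop :=
  ∀ (G J : Type) [Group G] (d : J → G),
    ∃ (F : Op (J × G) →⋆ₐ[ℂ] Op ((J × G) × G)) (K : Op (J × G) →⋆ₐ[ℂ] Op (J × (G × G))),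
      (∀ a b c, IsTens a b c → IsTens (Dop d a) b (F c)) ∧
      (∀ a b c, IsTens a b c → IsTens a (Dop (id : G → G) b) (K c)) ∧
      (∀ c i j k i' j' k', entry (K c) (i, (j, k)) (i', (j', k')) =
        if j⁻¹ * k = j'⁻¹ * k' then entry c (i, j) (i', j') else 0) ∧
      (∀ a, SameAssoc (F (Dop d a)) (K (Dop d a)))

/-- BU-PHI -/
def S_PHI : Prop :=
  ∀ (D : Dat), ∃ φ : CA (UU (tot D)) →⋆ₐ[ℂ] C(unitInterval, Op (((tot D).I × D.G) × D.G)),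
    (∀ (a : CA (UU (tot D))) t, φ a t = comp (upG D t) (a : Op ((tot D).I × D.G))) ∧
    (∀ a t, φ a t ∈ spat (CA (UU (tot D))) (CA (lam : D.G → Op D.G))) ∧
    (∀ a, ∃ h ∈ CA (lam : D.G → Op D.G), IsTens 1 h (φ a 0)) ∧
    (∀ a, ∃ b ∈ CA (UU (tot D)), φ a 1 = Dop (Prod.snd : (tot D).I × D.G → D.G) b)

/-- BU-EQ -/
def S_EQ : Prop :=
  ∀ (D : Dat) (t : unitInterval),
    ∃ F : spat (CA (UU (tot D))) (CA (lam : D.G → Op D.G)) →⋆ₐ[ℂ]
        Op ((((tot D).I × D.G) × D.G) × D.G),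
      (∀ a ∈ CA (UU (tot D)), ∀ b ∈ CA (lam : D.G → Op D.G),
        ∀ c : spat (CA (UU (tot D))) (CA (lam : D.G → Op D.G)),
        IsTens a b (c : Op (((tot D).I × D.G) × D.G)) → IsTens (comp (upG D t) a) b (F c)) ∧
      ∀ (c : spat (CA (UU (tot D))) (CA (lam : D.G → Op D.G))) p k p' k',
        entry (F c) (p, k) (p', k') =
          entry (c : Op (((tot D).I × D.G) × D.G)) (upG D t p, k) (upG D t p', k')

/-- BU-DAT -/
def S_DAT : Prop := Nonempty Dat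

end Pool.Agent.W744.BU
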