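import Pool.Agent.W744.BU.Defs

set_option autoImplicit false

open Set Filter Topology

namespace Pool.Agent.W744.BU

open Classical in
/-- The operator with a given matrix, if there is one. -/
noncomputable def opOf {I : Type} (m : I → I → ℂ) : Op I :=
  if h : ∃ a : Op I, ∀ i j, entry a i j = m i j then h.choose else 0

/-- The tensor product of operators. -/
noncomputable def tens {I J : Type} (a : Op I) (b : Op J) : Op (I × J) :=
  opOf fun p q => entry a p.1 q.1 * entry b p.2 q.2

/-- Compression along a map of index sets (used for injective maps). -/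
noncomputable def comp {J' J : Type} (ι : J' → J) (a : Op J) : Op J' :=
  opOf fun i j => entry a (ι i) (ι j)

/-- `a` is reduced by the map of index sets `ι`. -/
def Red {J' J : Type} (ι : J' → J) (a : Op J) : Prop :=
  ∀ j i, j ∉ range ι → entry a j (ι i) = 0 ∧ entry a (ι i) j = 0

open Classical in
/-- Block diagonal operators. -/
noncomputable def blk {N : Type} {I : N → Type} (f : ∀ n, Op (I n)) : Op (Σ n, I n) :=
  opOf fun p q => if h : p.1 = q.1 then entry (f q.1) (h ▸ p.2) q.2 else 0

open Classical in
/-- The left translation by `g` on `ℓ²(G)`. -/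
noncomputable def lam {G : Type} [Group G] (g : G) : Op G :=
  opOf fun h k => if h = g * k then 1 else 0

open Classical in
/-- The map `a ↦ V (a ⊗ 1) V*`, `V e_(j,h) = e_(j, d(j) h)`. -/
noncomputable def Dop {G J : Type} [Group G] (d : J → G) (a : Op J) : Op (J × G) :=
  opOf fun p q => if (d p.1)⁻¹ * p.2 = (d q.1)⁻¹ * q.2 then entry a p.1 q.1 else 0

/-- The C*-algebra generated by a family. -/
noncomputable def CA {J K : Type} (U : K → Op J) : StarSubalgebra ℂ (Op J) :=
  (StarAlgebra.adjoin ℂ (range U)).topologicalClosure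

section formulas
variable {B : Type} [CStarAlgebra B]

/-- `(r - x) / (1 - r x)`. -/
noncomputable def bF (r : ℝ) (x : B) : B :=
  ((r : ℂ) • (1 : B) - x) * Ring.inverse ((1 : B) - (r : ℂ) • x)

noncomputable def AF (q r : ℝ) (x : B) : B := ((Real.sqrt (q * (1 - q)) : ℝ) : ℂ) • ((1 : B) - bF r x)

noncomputable def BF (q r : ℝ) (x : B) : B := (q : ℂ) • (1 : B) + ((1 - q : ℝ) : ℂ) • bF r x

/-- The path element (the star of the `(1,1)` entry minus `c` times the star of the `(1,2)`
entry of a unitary `2 × 2` matrix). -/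
noncomputable def tau (A C : B) (c : B) (y : B) : B :=
  star ((1 + C * (y - 1) * star C) * star y) - c * star (C * (y - 1) * A)

noncomputable def tauF (q r : ℝ) (x y : B) : B :=
  tau (AF q r x) (BF q r x) ((((q + (1 - q) * r)⁻¹ : ℝ) : ℂ) • AF q r x) y

/-- The unitary part of an invertible element. -/
noncomputable def polF (g : B) : B := g * cfc (fun s : ℝ => (Real.sqrt s)⁻¹) (star g * g)

noncomputable def rr (t : ℝ) : ℝ := 49 / 50 * min 1 (2 * (1 - t))
noncomputable def qq (t : ℝ) : ℝ := max 0 (1 - 2 * t)

/-- The path from `1` to `y x y* x*`. -/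
noncomputable def pathF (t : ℝ) (x y : B) : B := polF (tauF (qq t) (rr t) x y)

end formulas

/-- Formal products of conjugates of a base element. -/
inductive Ex (G : Type) : Type
  | one : Ex G
  | base : Ex G
  | inv : Ex G → Ex G
  | mul : Ex G → Ex G → Ex G
  | conj : G → Ex G → Ex G

/-- The value in the group, `g₀` being the base element. -/
def Ex.deg {G : Type} [Group G] (g₀ : G) : Ex G → G
  | .one => 1
  | .base => g₀
  | .inv x => (Ex.deg g₀ x)⁻¹
  | .mul x y => Ex.deg g₀ x * Ex.deg g₀ y
  | .conj h x => h * Ex.deg g₀ x * h⁻¹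

/-- The value in a C*-algebra, `P` being the base element. -/
noncomputable def Ex.ev {G B : Type} [CStarAlgebra B] (u : G → B) (P : B) : Ex G → B
  | .one => 1
  | .base => P
  | .inv x => star (Ex.ev u P x)
  | .mul x y => Ex.ev u P x * Ex.ev u P y
  | .conj h x => u h * Ex.ev u P x * star (u h)

/-- The data: a group with a pair `(a, b)` and a set `E` with `aⁿ E ∩ E = ∅` for `n ≥ 1` and
`b Eᶜ ⊆ E`, such that every element is a product of conjugates of `b a b⁻¹ a⁻¹` and its
inverse. -/
structure Dat where
  G : Type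
  [grp : Group G]
  a : G
  b : G
  E : Set G
  hab : b * a * b⁻¹ * a⁻¹ ≠ 1
  hE : ∀ n : ℕ, 1 ≤ n → ∀ g ∈ E, a ^ n * g ∉ E
  hE' : ∀ g, g ∉ E → b * g ∈ E
  ex : G → Ex G
  hex : ∀ g, Ex.deg (b * a * b⁻¹ * a⁻¹) (ex g) = g

attribute [instance] Dat.grp

/-- The path of unitaries attached to `g` and a family `u` of unitaries. -/
noncomputable def YF (D : Dat) {B : Type} [CStarAlgebra B] (t : ℝ) (u : D.G → B) (g : D.G) : B :=
  Ex.ev u (pathF t (u D.a) (u D.b)) (D.ex g)

/-- A family of operators indexed by the group. -/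
structure Rep (G : Type) where
  I : Type
  X : G → Op I

/-- The operators `X_g ⊗ λ_g`. -/
noncomputable def UU {G : Type} [Group G] (R : Rep G) (g : G) : Op (R.I × G) :=
  tens (R.X g) (lam g)

/-- One step of the recursion. -/
noncomputable def step (D : Dat) (R : Rep D.G) : Rep D.G where
  I := Σ _ : unitInterval, R.I × D.G
  X := fun g => blk (fun t : unitInterval => YF D (t : ℝ) (UU R) g)

/-- The sequence of families. -/
noncomputable def seqR (D : Dat) : ℕ → Rep D.G
  | 0 => ⟨Unit, fun _ => 1⟩
  | n + 1 => step D (seqR D n)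

/-- The direct sum of the sequence. -/
noncomputable def tot (D : Dat) : Rep D.G where
  I := Σ n : ℕ, (seqR D n).I
  X := fun g => blk (fun n : ℕ => (seqR D n).X g)

/-- The inclusion of index sets `(n, i), g ↦ (n + 1, t, i, g)`. -/
def up (D : Dat) (t : unitInterval) (p : (tot D).I × D.G) : (tot D).I :=
  ⟨p.1.1 + 1, ⟨t, (p.1.2, p.2)⟩⟩

end Pool.Agent.W744.BU
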